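import Pool.Agent.K4H27.VF.Main
import Pool.Agent.K4H27.VF.Comb5

/-!
# Voisin's conjecture for diagonal surfaces

Let `X` be the Fermat surface of degree `dN` and `H` a group of diagonal automorphisms of `X` given
by `N`-th roots of unity, which contains all automorphisms `(ζ, 1, 1, 1)` with `ζ ^ N = 1`. For
instance, `X / H` can be every diagonal surface `w ^ d = x ^ (d a) + y ^ (d b) + z ^ (d c)` in which
one exponent divides the other three (`N` a common multiple of `a, b, c`), among them all cyclic
covers `w ^ d = x ^ m + y ^ m + z ^ m` of the plane branched along Fermat curves (`d ∣ m`) and, for
`N = 1`, the Fermat surfaces. Their first Betti number is zero, and the geometric genus `p` of a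
resolution is the number of `H`-invariant holomorphic two-forms of `X`.

For all `n > p` and all zero-cycles `z_1, …, z_n` of degree zero on `X` invariant under `H` a
positive multiple of the alternating sum of the `z_σ(1) × ⋯ × z_σ(n)` is rationally equivalent to
zero on `X ^ n`.

Everything is concrete: a finite set of points of `X ^ n` over an algebraic closure `K` of `ℂ(t)`,
stable under the Galois group, is a zero-cycle on `X ^ n` over `ℂ(t)`, that is, a family of
zero-cycles over the line; its values at two points of the line (limits with respect to two places
of `K`) are rationally equivalent, and these relations generate rational equivalence.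

Proof. Decompose under the characters of `(ℤ/dN)^(4n)`. Three kinds of families of points are used:
one of them kills the characters with a zero exponent, one exchanges two blocks with the same
exponents, and the main one (`Tw.cycle`) kills the characters for which some of the blocks form a
directed cycle: in each of these blocks the four exponents are divided into three groups with sums
`c, α, -α'`, where `α'` is the value `α` of the next block. The combinatorial part shows that more
than `p` different characters always contain a directed cycle: the characters of a class modulo
`N` (up to sign) give edges `α → α + c` in two cosets of `ℤ/d`, and if there are no directed cycles,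
at most `d - t` vertices have `t` or more outgoing edges, so that the class has at most
`∑ (d - t)^2` members, which is the number of holomorphic forms of the class.
-/

namespace Pool.Agent.Results.MP_83b46e_ag.DiagonalSurfaces

open Pool.Agent.K4H27.VF

theorem result (d N : ℕ) [NeZero d] [NeZero N] (H : AddSubgroup (Fin 4 → ZMod (d * N)))
    (hH : ∀ k ∈ H, ∀ i, (N : ZMod (d * N)) * k i = 0)
    (hH0 : Pi.single 0 (d : ZMod (d * N)) ∈ H) (n : ℕ) (hn : (forms H).card < n)
    (z : Fin n → (S (d * N) →₀ ℤ)) (hz : ∀ j, IsInvariant H (z j)) (hd : ∀ j, deg (z j) = 0) :
    ∃ M : ℕ, 0 < M ∧ M • altCycle z ∈ rel (d * N) n :=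
  main (fun χ h1 h2 h3 h4 => comb hH hH0 hn χ h1 h2 h3 h4) hz hd

end Pool.Agent.Results.MP_83b46e_ag.DiagonalSurfaces
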