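import Pool.Agent.K4H60.Voi.Fin
import Pool.Agent.K4H60.Voi.Def

/-!
# Voisin's conjecture for surfaces covered by product-quotients, any finite groups

Let `CH` be the Chow groups with rational coefficients of smooth projective varieties (any theory
with their formal properties, `IsChowProj`) and let `K` be a field containing `ℚ`.

For `i` in a finite set let the finite group `G i` act on the curves `X i` and `Y i`, and let
`u i φ`, for `φ` in a finite set `Φ i`, be idempotents of the group algebra `K[G i]` which are fixed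
by `g ↦ g⁻¹` and generate `K[G i]` as a two-sided ideal (`IsSystem`). Let `2 γ i φ` and `2 γ' i φ` be
the ranks in the sense of Kimura of the parts `h^1(X i) u_φ` and `h^1(Y i) u_φ`. If the Albanese
kernel of `S` comes from the quotients `(X i × Y i) / G i`, and `n > ∑ γ i φ * γ' i φ`, then
`∑_σ sign(σ) s_1^* α_(σ 1) ⋯ s_n^* α_(σ n) = 0` in `CH(W)` for all classes `α_1, …, α_n` in the
Albanese kernel of `S` and all `s_1, …, s_n : W ⟶ S`.

For `K = ℝ` and groups all of whose irreducible representations `ρ` are orthogonal, one takes the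
idempotents `u_ρ = (dim ρ / |G|) ∑ ρ(g)_11 g`; then `2 γ_ρ` is the multiplicity of `ρ` in `H^1(X)`
and the bound `∑ γ_ρ γ'_ρ` is the geometric genus of `(X × Y) / G`. The case `G = (ℤ/2)^r` is
`Pool.Agent.R904.Voi.main`.
-/

open CategoryTheory AlgebraicGeometry
open scoped TensorProduct

universe u v w

namespace Pool.Agent.Results.MP_83b46e_ag.ProductQuotients

open Pool.Agent.H914 Pool.Agent.H914.VarClass Pool.Agent.H914.VarClass.Obj Pool.Agent.W492.BB
  Pool.Agent.W550.Corr Pool.Agent.TH133 Pool.Agent.Y152.AS Pool.Agent.K4H60.Voi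

/-- Voisin's conjecture for surfaces whose Albanese kernel comes from quotients of products of two
curves by finite groups: the alternating sums of more than `∑ γ γ'` classes in the Albanese kernel
vanish. -/
theorem result {k : Type u} [Field k] {𝒱 : VarClass k} (C : TheoryData.{u, v, 0} 𝒱 ℚ)
    [IsChowProj C] (K : Type) [Field K] [Algebra ℚ K] {ι : Type} [Fintype ι]
    (X Y : ι → 𝒱.Obj) (G : ι → Type) [∀ i, Group (G i)] [∀ i, Fintype (G i)]
    [∀ i, DecidableEq (G i)] (a : ∀ i, G i → (X i ⟶ X i)) (a' : ∀ i, G i → (Y i ⟶ Y i))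
    (Φ : ι → Type) [∀ i, Fintype (Φ i)] (u : ∀ i, Φ i → G i → K) (γ γ' : ∀ i, Φ i → ℕ)
    (hu : ∀ i, IsSystem (u i)) (hX : ∀ i, IsCurveWithRanks C K (X i) (a i) (u i) (γ i))
    (hY : ∀ i, IsCurveWithRanks C K (Y i) (a' i) (u i) (γ' i)) (S : 𝒱.Obj)
    (hS : IsCoveredByQuotients C a a' S) (n : ℕ) (hn : ∑ i, ∑ φ, γ i φ * γ' i φ < n) :
    VoisinVanishing C S n :=
  covered K X Y G a a' Φ u γ γ' hu hX hY hS hn

end Pool.Agent.Results.MP_83b46e_ag.ProductQuotients
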