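import Pool.Agent.K4H60.Voi.Sq
import Pool.Agent.K4H60.Voi.Def

/-!
# Voisin's conjecture for surfaces covered by quotients of squares of curves by groups with swaps

Let `CH` be the Chow groups with rational coefficients of smooth projective varieties (any theory
with their formal properties, `IsChowProj`) and let `K` be a field containing `ℚ`.

For `i` in a finite set let the finite group `G i` act on the curve `X i`, let `c i ∈ G i`, and let
`u i φ`, for `φ` in a finite set `Φ i`, be idempotents of the group algebra `K[G i]` which are fixed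
by `g ↦ g⁻¹` and generate `K[G i]` as a two-sided ideal (`IsSystem`), with `c i * u i φ = ± u i φ`.
Let `2 γ i φ` be the rank in the sense of Kimura of the part `h^1(X i) u_φ`. If the Albanese kernel
of `S` comes from the quotients of `X i × X i` by the groups generated by the diagonal action of
`G i` and by `(x, y) ↦ (y, c x)`, then the alternating sums of `n` classes in the Albanese kernel of
`S` vanish for all `n > ∑ γ (γ ∓ 1) / 2` (the sign `-` for `c u = u` and `+` for `c u = - u`).

If all irreducible representations of `G` are orthogonal and `c` is central this is the geometric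
genus of the quotient of `X × X`. Examples: quotients of `Sym^2 X` (`c = 1`); for a hyperelliptic
curve `X` of genus `g` with the involution `ι` the quotient of `X × X` by `(x, y) ↦ (y, ι x)`, of
geometric genus `g (g + 1) / 2`.
-/

open CategoryTheory AlgebraicGeometry
open scoped TensorProduct

universe u v w

namespace Pool.Agent.Results.MP_83b46e_ag.SquareQuotients

open Pool.Agent.H914 Pool.Agent.H914.VarClass Pool.Agent.H914.VarClass.Obj Pool.Agent.W492.BB
  Pool.Agent.W550.Corr Pool.Agent.TH133 Pool.Agent.Y152.AS Pool.Agent.K4H60.Voi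

/-- Voisin's conjecture for surfaces whose Albanese kernel comes from quotients of squares of curves
by finite groups containing swaps of the factors. -/
theorem result {k : Type u} [Field k] {𝒱 : VarClass k} (C : TheoryData.{u, v, 0} 𝒱 ℚ)
    [IsChowProj C] (K : Type) [Field K] [Algebra ℚ K] {ι : Type} [Fintype ι]
    (X : ι → 𝒱.Obj) (G : ι → Type) [∀ i, Group (G i)] [∀ i, Fintype (G i)]
    [∀ i, DecidableEq (G i)] (a : ∀ i, G i → (X i ⟶ X i)) (c : ∀ i, G i)
    (Φ : ι → Type) [∀ i, Fintype (Φ i)] (u : ∀ i, Φ i → G i → K) (γ : ∀ i, Φ i → ℕ)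
    (η : ∀ i, Φ i → ℤˣ) (hu : ∀ i, IsSystem (u i))
    (hX : ∀ i, IsCurveWithRanks C K (X i) (a i) (u i) (γ i))
    (hc : ∀ i φ g, u i φ ((c i)⁻¹ * g) = ((η i φ : ℤ) : K) * u i φ g) (S : 𝒱.Obj)
    (hS : IsCoveredBySquares C a c S) (n : ℕ) (hn : ∑ i, ∑ φ, pairs (η i φ) (γ i φ) < n) :
    VoisinVanishing C S n :=
  coveredSq K X G a c Φ u γ η hu hX hc hS hn

end Pool.Agent.Results.MP_83b46e_ag.SquareQuotients
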