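import Pool.Agent.K4H27.VF.Main
import Pool.Agent.K4H27.VF.Sym

/-!
# Voisin's conjecture for surfaces of Godeaux type

Let `X` be the Fermat surface of degree `m` and `H` a group of diagonal automorphisms of `X`,
`H ⊆ (ℤ/m)^4`, for which the set of the vectors `(k₀ - k₁, k₁ - k₂, k₂ - k₃)`, `k ∈ H`, is stable
under the permutations of the three entries. The main examples are the groups generated by
`(η^3, η^2, η, 1)` with `η^e = 1`, `e ∣ m`: for `m = e = 5` the quotient `X / H` is the Godeaux
surface, and for all `e` prime to `6` the quotient is smooth (the group acts freely), of general
type for `m ≥ 5`, with `1 + p = (1 + (m-1)(m-2)(m-3)/6)/e` for its geometric genus `p`.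

For all `n > p`, `p` the number of `H`-invariant holomorphic two-forms of `X` (the geometric genus
of a resolution of `X / H`), and all `H`-invariant zero-cycles `z_1, …, z_n` of degree zero on `X` a
positive multiple of the alternating sum of the `z_σ(1) × ⋯ × z_σ(n)` is rationally equivalent to
zero on `X ^ n`.

Everything is concrete: a finite set of points of `X ^ n` over an algebraic closure `K` of `ℂ(t)`,
stable under the Galois group, is a family of zero-cycles over the line; its values at two points of
the line (limits with respect to two places of `K`) are rationally equivalent, and these relations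
generate rational equivalence.

Proof. Decompose under the characters of `(ℤ/m)^(4n)`. A character of `X` without zero exponents
and without opposite exponents is a path with three different vertices in `ℤ/m ∖ {0}`. If two
different characters have the same three vertices, then they form a cycle, and cycles are killed by
explicit families of points (`Tw.cycle`). The symmetry of `H` shows that the number of sets of
vertices which occur is the number of holomorphic two-forms.
-/

namespace Pool.Agent.Results.MP_83b46e_ag.SymmetricQuotients

open Pool.Agent.K4H27.VF

theorem result (m : ℕ) [NeZero m] (H : AddSubgroup (Fin 4 → ZMod m)) (hH : IsSymmetric H)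
    (n : ℕ) (hn : (forms H).card < n) (z : Fin n → (S m →₀ ℤ)) (hz : ∀ j, IsInvariant H (z j))
    (hd : ∀ j, deg (z j) = 0) : ∃ M : ℕ, 0 < M ∧ M • altCycle z ∈ rel m n :=
  main (fun χ h1 h2 h3 h4 => comb_sym hH hn χ h1 h2 h3 h4) hz hd

end Pool.Agent.Results.MP_83b46e_ag.SymmetricQuotients
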